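import Pool.Agent.Lib.MP_fa837f_gt.P2.Iface
import Pool.Agent.Lib.MP_fa837f_gt.GaussDet

/-!
Project P2, row WD: derivatives of `det R`, `R⁻¹`, `bb`, `be` in the weights.
-/

set_option autoImplicit false

open Matrix Filter Topology

namespace Pool.Agent.Lib.MP_fa837f_gt.P2.H30

open Pool.Agent.Lib.MP_fa837f_gt Pool.Agent.Lib.MP_fa837f_gt.P2

variable {n k : ℕ}

theorem RR_apply (m : Fin n → Fin k → ℝ) (x : Fin n → ℝ) (a b : Fin k) :
    RR m x a b = ∑ i, x i * (m i a * m i b) := by
  unfold RR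
  simp only [Matrix.sum_apply, Matrix.smul_apply, vecMulVec_apply, smul_eq_mul]

theorem RR_smooth (m : Fin n → Fin k → ℝ) (a b : Fin k) :
    ContDiff ℝ (⊤ : ℕ∞) fun x : Fin n → ℝ => RR m x a b := by
  simp only [RR_apply]
  refine ContDiff.sum fun i _ => ?_
  exact (contDiff_apply ℝ ℝ i).mul contDiff_const

theorem det_smooth {ι : Type} [Fintype ι] [DecidableEq ι] {E : Type} [NormedAddCommGroup E]
    [NormedSpace ℝ E] (M : E → Matrix ι ι ℝ)
    (h : ∀ a b, ContDiff ℝ (⊤ : ℕ∞) fun x => M x a b) :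
    ContDiff ℝ (⊤ : ℕ∞) fun x => (M x).det := by
  simp only [Matrix.det_apply]
  refine ContDiff.sum fun σ _ => ?_
  refine ContDiff.const_smul _ ?_
  exact contDiff_prod fun i _ => h _ _

theorem adj_smooth (m : Fin n → Fin k → ℝ) (a b : Fin k) :
    ContDiff ℝ (⊤ : ℕ∞) fun x : Fin n → ℝ => (RR m x).adjugate a b := by
  simp only [Matrix.adjugate_apply]
  refine det_smooth _ fun c d => ?_
  by_cases hc : c = b
  · subst hc
    simp only [Matrix.updateRow_self]
    exact contDiff_const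
  · simp only [Matrix.updateRow_ne hc]
    exact RR_smooth m c d

theorem RR_posDef (m : Fin n → Fin k → ℝ) (r : Fin n → ℝ) (hm : Spans m) (hr : ∀ i, 0 < r i) :
    (RR m r).PosDef := by
  refine Matrix.PosDef.of_dotProduct_mulVec_pos ?_ fun x hx => ?_
  · ext a b
    simp only [conjTranspose_apply, star_trivial, RR_apply]
    refine Finset.sum_congr rfl fun i _ => ?_
    ring
  · have h1 : star x ⬝ᵥ (RR m r *ᵥ x) = ∑ i, r i * (m i ⬝ᵥ x) ^ 2 := by
      rw [star_trivial]
      have : x ⬝ᵥ (RR m r *ᵥ x) = quad (RR m r) x := rfl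
      rw [this]
      unfold RR
      have hq : ∀ s : Finset (Fin n), quad (∑ i ∈ s, r i • vecMulVec (m i) (m i)) x =
          ∑ i ∈ s, r i * (m i ⬝ᵥ x) ^ 2 := by
        intro s
        induction s using Finset.induction_on with
        | empty => simp [quad]
        | insert i s hi ih =>
          rw [Finset.sum_insert hi, Finset.sum_insert hi, quad_add, ih, quad_rankOne]
      exact hq Finset.univ
    rw [h1]
    have h0 : ∃ i, m i ⬝ᵥ x ≠ 0 := by
      by_contra h
      push Not at h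
      exact hx (hm x h)
    obtain ⟨i, hi⟩ := h0
    refine Finset.sum_pos' (fun j _ => mul_nonneg (hr j).le (sq_nonneg _))
      ⟨i, Finset.mem_univ _, mul_pos (hr i) (by positivity)⟩

theorem RR_single (m : Fin n → Fin k → ℝ) (r : Fin n → ℝ) (l : Fin n) (t : ℝ) :
    RR m (r + t • Pi.single l 1) = RR m r + t • vecMulVec (m l) (m l) := by
  ext a b
  simp only [RR_apply, Matrix.add_apply, Matrix.smul_apply, vecMulVec_apply, smul_eq_mul,
    Pi.add_apply, Pi.smul_apply, Pi.single_apply, add_mul, Finset.sum_add_distrib]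
  congr 1
  rw [Finset.sum_eq_single l]
  · simp
  · intro i _ hi
    simp [hi]
  · intro h
    exact absurd (Finset.mem_univ l) h

/-- Sherman and Morrison. -/
theorem inv_rankOne {S : Matrix (Fin k) (Fin k) ℝ} (hS : S.PosDef) (l : Fin k → ℝ) (t : ℝ)
    (ht : 1 + t * (l ⬝ᵥ (S⁻¹ *ᵥ l)) ≠ 0) :
    (S + t • vecMulVec l l)⁻¹ =
      S⁻¹ - (t / (1 + t * (l ⬝ᵥ (S⁻¹ *ᵥ l)))) • vecMulVec (S⁻¹ *ᵥ l) (S⁻¹ *ᵥ l) := by
  have hdet : IsUnit S.det := (Ne.isUnit hS.det_pos.ne')
  set b := S⁻¹ *ᵥ l with hb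
  set s := t / (1 + t * (l ⬝ᵥ b)) with hs
  have hSb : S *ᵥ b = l := by
    rw [hb, Matrix.mulVec_mulVec, Matrix.mul_nonsing_inv _ hdet, Matrix.one_mulVec]
  have hlS : l ᵥ* S⁻¹ = b := by
    rw [hb, ← Matrix.mulVec_transpose]
    congr 1
    have h5 := hS.isHermitian.inv
    rw [IsHermitian, conjTranspose_eq_transpose_of_trivial] at h5
    exact h5
  apply Matrix.inv_eq_right_inv
  rw [add_mul, mul_sub, mul_sub, Matrix.mul_nonsing_inv _ hdet, Matrix.mul_smul,
    Matrix.mul_vecMulVec, hSb, Matrix.smul_mul, Matrix.vecMulVec_mul, hlS, Matrix.smul_mul,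
    Matrix.mul_smul, Matrix.vecMulVec_mul_vecMulVec]
  have h1 : s * (1 + t * (l ⬝ᵥ b)) = t := by
    rw [hs]
    field_simp
  ext i j
  simp only [Matrix.add_apply, Matrix.sub_apply, Matrix.smul_apply, vecMulVec_apply, smul_eq_mul,
    Pi.smul_apply, MulOpposite.smul_eq_mul_unop, MulOpposite.unop_op]
  linear_combination (-(l i * b j)) * h1

/-- A differentiable function on `ℝ^n` has the derivative given by the derivatives along the
axes. -/
theorem fderiv_of_axes {f : (Fin n → ℝ) → ℝ} {r : Fin n → ℝ} (hf : DifferentiableAt ℝ f r)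
    (c : Fin n → ℝ) (h : ∀ l, HasDerivAt (fun t : ℝ => f (r + t • Pi.single l 1)) (c l) 0) :
    HasFDerivAt f (∑ l, c l • prj l) r := by
  have h1 := hf.hasFDerivAt
  have h2 : ∀ l, fderiv ℝ f r (Pi.single l 1) = c l := by
    intro l
    have h3 : HasDerivAt (fun t : ℝ => f (r + t • Pi.single l 1))
        (fderiv ℝ f r (Pi.single l 1)) 0 := by
      have h4 : HasFDerivAt f (fderiv ℝ f r) (r + (0 : ℝ) • (Pi.single l 1 : Fin n → ℝ)) := by
        simpa using h1
      have h5 : HasDerivAt (fun t : ℝ => r + t • (Pi.single l 1 : Fin n → ℝ))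
          (Pi.single l 1) 0 := by
        have := ((hasDerivAt_id (0 : ℝ)).smul_const (Pi.single l 1 : Fin n → ℝ)).const_add r
        simpa using this
      exact h4.comp_hasDerivAt (0 : ℝ) h5
    exact h3.unique (h l)
  have h3 : (∑ l, c l • prj l : (Fin n → ℝ) →L[ℝ] ℝ) = fderiv ℝ f r := by
    refine ContinuousLinearMap.ext fun x => ?_
    have hx : x = ∑ l, x l • (Pi.single l 1 : Fin n → ℝ) := by
      ext i
      simp [Finset.sum_apply, Pi.single_apply]
    conv_rhs => rw [hx, map_sum]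
    rw [ContinuousLinearMap.sum_apply]
    refine Finset.sum_congr rfl fun l _ => ?_
    rw [map_smul, h2 l]
    simp only [ContinuousLinearMap.smul_apply, ContinuousLinearMap.proj_apply, smul_eq_mul]
    ring
  rw [h3]
  exact h1

theorem be_symm (m : Fin n → Fin k → ℝ) (r : Fin n → ℝ) (hm : Spans m) (hr : ∀ i, 0 < r i)
    (i j : Fin n) : be m r i j = be m r j i := by
  have h5 := (RR_posDef m r hm hr).isHermitian.inv
  rw [IsHermitian, conjTranspose_eq_transpose_of_trivial] at h5
  unfold be bb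
  rw [Matrix.dotProduct_mulVec, ← Matrix.mulVec_transpose, h5, dotProduct_comm]

theorem wd_st : WdStatement := by
  intro n k m hm
  have hsd : ContDiff ℝ (⊤ : ℕ∞) fun x : Fin n → ℝ => (RR m x).det :=
    det_smooth _ fun a b => RR_smooth m a b
  have hsi : ∀ a b, ContDiffOn ℝ (⊤ : ℕ∞) (fun x : Fin n → ℝ => (RR m x)⁻¹ a b)
      {x | ∀ i, 0 < x i} := by
    intro a b
    have h1 : ∀ x : Fin n → ℝ, (RR m x)⁻¹ a b = (RR m x).det⁻¹ * (RR m x).adjugate a b := by
      intro x
      rw [Matrix.inv_def, Ring.inverse_eq_inv', Matrix.smul_apply, smul_eq_mul]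
    simp only [h1]
    refine ContDiffOn.mul (ContDiffOn.inv hsd.contDiffOn fun x hx => ?_)
      (adj_smooth m a b).contDiffOn
    exact (RR_posDef m x hm hx).det_pos.ne'
  refine ⟨hsd, hsi, fun r hr => ?_⟩
  have hP := RR_posDef m r hm hr
  have hopen : IsOpen {x : Fin n → ℝ | ∀ i, 0 < x i} := by
    have : {x : Fin n → ℝ | ∀ i, 0 < x i} = ⋂ i, {x | 0 < x i} := by
      ext x
      simp
    rw [this]
    exact isOpen_iInter_of_finite fun i => isOpen_lt continuous_const (continuous_apply i)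
  have hinv : ∀ a b, HasFDerivAt (fun x => (RR m x)⁻¹ a b)
      (∑ l, (-(bb m r l a * bb m r l b)) • prj l) r := by
    intro a b
    refine fderiv_of_axes ?_ _ fun l => ?_
    · exact ((hsi a b).contDiffAt (hopen.mem_nhds hr)).differentiableAt (by simp)
    · have h1 : HasDerivAt (fun t : ℝ => (RR m r)⁻¹ a b -
          (t / (1 + t * (m l ⬝ᵥ ((RR m r)⁻¹ *ᵥ m l)))) * (bb m r l a * bb m r l b))
          (-(bb m r l a * bb m r l b)) 0 := by
        have h2 : HasDerivAt (fun t : ℝ => t / (1 + t * (m l ⬝ᵥ ((RR m r)⁻¹ *ᵥ m l)))) 1 0 := by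
          have h3 := (hasDerivAt_id' (0 : ℝ)).fun_div
            (((hasDerivAt_id' (0 : ℝ)).mul_const (m l ⬝ᵥ ((RR m r)⁻¹ *ᵥ m l))).const_add 1)
            (by simp)
          simpa using h3
        have h4 := (h2.mul_const (bb m r l a * bb m r l b)).const_sub ((RR m r)⁻¹ a b)
        simpa using h4
      refine h1.congr_of_eventuallyEq ?_
      have h5 : ∀ᶠ t : ℝ in 𝓝 0, 1 + t * (m l ⬝ᵥ ((RR m r)⁻¹ *ᵥ m l)) ≠ 0 := by
        have h6 : ContinuousAt (fun t : ℝ => 1 + t * (m l ⬝ᵥ ((RR m r)⁻¹ *ᵥ m l))) 0 := by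
          fun_prop
        exact h6.eventually_ne (by simp)
      filter_upwards [h5] with t ht
      simp only [RR_single]
      rw [inv_rankOne hP (m l) t ht]
      simp only [Matrix.sub_apply, Matrix.smul_apply, vecMulVec_apply, smul_eq_mul]
      rfl
  have hbb : ∀ i a, HasFDerivAt (fun x => bb m x i a)
      (∑ l, (-(bb m r l a * be m r l i)) • prj l) r := by
    intro i a
    have h1 : HasFDerivAt (fun x => ∑ c, (RR m x)⁻¹ a c * m i c)
        (∑ c, m i c • ∑ l, (-(bb m r l a * bb m r l c)) • prj l) r :=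
      HasFDerivAt.fun_sum fun c _ => (hinv a c).mul_const (m i c)
    refine h1.congr_fderiv ?_
    refine ContinuousLinearMap.ext fun v => ?_
    simp only [ContinuousLinearMap.sum_apply, ContinuousLinearMap.smul_apply, smul_eq_mul,
      ContinuousLinearMap.proj_apply, Finset.mul_sum]
    rw [Finset.sum_comm]
    refine Finset.sum_congr rfl fun l _ => ?_
    rw [be_symm m r hm hr l i]
    unfold be
    simp only [dotProduct, Finset.mul_sum, Finset.sum_mul, ← Finset.sum_neg_distrib]
    refine Finset.sum_congr rfl fun c _ => ?_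
    ring
  refine ⟨?_, hinv, hbb, ?_⟩
  · refine fderiv_of_axes (hsd.contDiffAt.differentiableAt (by simp)) _ fun l => ?_
    simp only [RR_single]
    have h1 : ∀ t : ℝ, (RR m r + t • vecMulVec (m l) (m l)).det =
        (RR m r).det * (1 + t * be m r l l) := fun t => det_add_rankOne hP t (m l)
    simp only [h1]
    have h3 := (((hasDerivAt_id (0 : ℝ)).mul_const (be m r l l)).const_add 1).const_mul
      (RR m r).det
    simpa using h3
  · intro i j
    have h1 : HasFDerivAt (fun x => ∑ a, m i a * bb m x j a)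
        (∑ a, m i a • ∑ l, (-(bb m r l a * be m r l j)) • prj l) r :=
      HasFDerivAt.fun_sum fun a _ => (hbb j a).const_mul (m i a)
    refine h1.congr_fderiv ?_
    refine ContinuousLinearMap.ext fun v => ?_
    simp only [ContinuousLinearMap.sum_apply, ContinuousLinearMap.smul_apply, smul_eq_mul,
      ContinuousLinearMap.proj_apply, Finset.mul_sum]
    rw [Finset.sum_comm]
    refine Finset.sum_congr rfl fun l _ => ?_
    have h2 : be m r i l = ∑ a, m i a * bb m r l a := rfl
    rw [h2]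
    simp only [Finset.sum_mul, ← Finset.sum_neg_distrib]
    refine Finset.sum_congr rfl fun a _ => ?_
    ring

end Pool.Agent.Lib.MP_fa837f_gt.P2.H30
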